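import Pool.Agent.Y254.EL.Dual3

/-!
# MP_850839: loss removal for the tube inequality, and its equivalence with the estimate for the
Kakeya maximal function

Let `n ≥ 3`.  `Tubes n q` is the inequality of the problem for the exponent `q`, `TubesLoss n q` the
same inequality with an additional factor `C δ ^ (-ε)` for every `ε > 0`, and `MaximalEstimate n` is
the estimate `‖f*_δ‖_n ≤ C δ ^ (-ε) ‖f‖_n`, for every `ε > 0`, for the Kakeya maximal function.

* (loss removal at every exponent) if `q₀ ≥ n / (n - 1)` and `TubesLoss n q₀`, then `Tubes n q` for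
  all `q > q₀`;
* the question of the problem in `ℝ^n` (`Tubes n q` for all `q > n / (n - 1)`) is equivalent to the
  inequality `TubesLoss n (n / (n - 1))` at the end of the range, and to `MaximalEstimate n`;
* `Tubes n q` holds for all `q > (n + 2) / n`.

The proofs are theorems of the starting library that no file used (`Pool.Agent.Y254.EL`,
`Pool.Agent.Y254.wolff`).
-/

set_option autoImplicit false

open MeasureTheory
open scoped ENNReal

namespace Pool.Agent.Results.MP_850839_an.LossRemoval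

/-- The `δ`-tube with centre `a` and direction `e` (a unit vector): the closed cylinder of length
`1` and radius `δ` around the segment with centre `a` and direction `e`. -/
def tube {n : ℕ} (δ : ℝ) (a e : EuclideanSpace ℝ (Fin n)) : Set (EuclideanSpace ℝ (Fin n)) :=
  {y | |inner ℝ (y - a) e| ≤ 1 / 2 ∧ ‖(y - a) - (inner ℝ (y - a) e) • e‖ ≤ δ}

/-- The inequality of the problem for the exponent `q`. -/
def Tubes (n : ℕ) (q : ℝ) : Prop :=
  ∃ C : ℝ, 0 < C ∧ ∀ δ : ℝ, 0 < δ → δ < 1 → ∀ (ι : Type) [Fintype ι]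
    (a e : ι → EuclideanSpace ℝ (Fin n)), (∀ i, ‖e i‖ = 1) →
    (∀ i j, i ≠ j → δ ≤ ‖e i - e j‖) →
    eLpNorm (fun x => ∑ i, (tube δ (a i) (e i)).indicator (fun _ => (1 : ℝ)) x)
        (ENNReal.ofReal q) volume ≤
      ENNReal.ofReal (C * δ ^ (((n : ℝ) - 1) / q) *
        (Fintype.card ι : ℝ) ^ (1 - 1 / (q * ((n : ℝ) - 1))))

/-- The inequality of the problem for the exponent `q`, with arbitrarily small losses. -/
def TubesLoss (n : ℕ) (q : ℝ) : Prop :=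
  ∀ ε : ℝ, 0 < ε → ∃ C : ℝ, 0 < C ∧ ∀ δ : ℝ, 0 < δ → δ < 1 → ∀ (ι : Type) [Fintype ι]
    (a e : ι → EuclideanSpace ℝ (Fin n)), (∀ i, ‖e i‖ = 1) →
    (∀ i j, i ≠ j → δ ≤ ‖e i - e j‖) →
    eLpNorm (fun x => ∑ i, (tube δ (a i) (e i)).indicator (fun _ => (1 : ℝ)) x)
        (ENNReal.ofReal q) volume ≤
      ENNReal.ofReal (C * δ ^ (-ε) * δ ^ (((n : ℝ) - 1) / q) *
        (Fintype.card ι : ℝ) ^ (1 - 1 / (q * ((n : ℝ) - 1))))

/-- The Kakeya maximal function. -/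
noncomputable def kakeyaMax {n : ℕ} (δ : ℝ) (f : EuclideanSpace ℝ (Fin n) → ℝ)
    (e : EuclideanSpace ℝ (Fin n)) : ℝ≥0∞ :=
  ⨆ a : EuclideanSpace ℝ (Fin n), (volume (tube δ a e))⁻¹ * ∫⁻ y in tube δ a e, ‖f y‖ₑ

/-- The estimate `‖f*_δ‖_n ≤ C δ ^ (-ε) ‖f‖_n`, for every `ε > 0`, for the Kakeya maximal function
in `ℝ^n` (the `L^n` norm of `f*_δ` is taken for the surface measure of the unit sphere). -/
def MaximalEstimate (n : ℕ) : Prop :=
  ∀ ε : ℝ, 0 < ε → ∃ C : ℝ, 0 < C ∧ ∀ δ : ℝ, 0 < δ → δ < 1 →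
    ∀ f : EuclideanSpace ℝ (Fin n) → ℝ, MemLp f n volume →
      (∫⁻ e, kakeyaMax δ f e ^ (n : ℝ)
        ∂(volume : Measure (EuclideanSpace ℝ (Fin n))).toSphere) ^ (1 / (n : ℝ)) ≤
        ENNReal.ofReal (C * δ ^ (-ε)) * eLpNorm f n volume

section bridge

variable {d : ℕ}

theorem enorm_eq {ι : Type} [Fintype ι] (δ : ℝ) (a e : ι → EuclideanSpace ℝ (Fin (d + 1))) (x : EuclideanSpace ℝ (Fin (d + 1))) :
    ‖∑ i, (tube δ (a i) (e i)).indicator (fun _ => (1 : ℝ)) x‖ₑ =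
      Pool.Agent.Y254.mult (fun i => Pool.Agent.W46.KK.tube δ (a i) (e i)) x := by
  rw [Real.enorm_of_nonneg (Finset.sum_nonneg fun i _ =>
    Set.indicator_nonneg (fun _ _ => zero_le_one) _),
    ENNReal.ofReal_sum_of_nonneg fun i _ => Set.indicator_nonneg (fun _ _ => zero_le_one) _]
  unfold Pool.Agent.Y254.mult
  refine Finset.sum_congr rfl fun i _ => ?_
  by_cases hx : x ∈ tube δ (a i) (e i)
  · have hx' : x ∈ Pool.Agent.W46.KK.tube δ (a i) (e i) := hx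
    rw [Set.indicator_of_mem hx, Set.indicator_of_mem hx', ENNReal.ofReal_one]
    rfl
  · have hx' : x ∉ Pool.Agent.W46.KK.tube δ (a i) (e i) := hx
    rw [Set.indicator_of_notMem hx, Set.indicator_of_notMem hx', ENNReal.ofReal_zero]

theorem norm_eq {q : ℝ} (hq0 : 0 < q) {ι : Type} [Fintype ι] (δ : ℝ)
    (a e : ι → EuclideanSpace ℝ (Fin (d + 1))) :
    eLpNorm (fun x => ∑ i, (tube δ (a i) (e i)).indicator (fun _ => (1 : ℝ)) x)
        (ENNReal.ofReal q) volume =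
      (∫⁻ x, Pool.Agent.Y254.mult (fun i => Pool.Agent.W46.KK.tube δ (a i) (e i)) x ^ q) ^
        (1 / q) := by
  rw [eLpNorm_eq_lintegral_rpow_enorm_toReal (by
    rw [ne_eq, ENNReal.ofReal_eq_zero, not_le]; exact hq0) ENNReal.ofReal_ne_top,
    ENNReal.toReal_ofReal hq0.le]
  simp only [enorm_eq]

theorem rhs_eq {q : ℝ} (hq0 : 0 < q) {K δ N : ℝ} (hK : 0 ≤ K) (hδ : 0 ≤ δ) (hN : 0 ≤ N) :
    (ENNReal.ofReal (K * (δ ^ d * N ^ (q - 1 / (d : ℝ))))) ^ (1 / q) =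
      ENNReal.ofReal (K ^ (1 / q) * δ ^ ((((d + 1 : ℕ) : ℝ) - 1) / q) *
        N ^ (1 - 1 / (q * (((d + 1 : ℕ) : ℝ) - 1)))) := by
  have e1 : (((d + 1 : ℕ) : ℝ) - 1) = d := by push_cast; ring
  rw [e1, ENNReal.ofReal_rpow_of_nonneg (by positivity) (by positivity)]
  congr 1
  rw [Real.mul_rpow (by positivity) (by positivity), Real.mul_rpow (by positivity) (by positivity),
    ← Real.rpow_natCast, ← Real.rpow_mul hδ, ← Real.rpow_mul (by positivity), mul_assoc]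
  congr 2
  · congr 1
    ring
  · congr 1
    field_simp

open Pool.Agent.Y254.EL

theorem tubes_of_euF {q C : ℝ} (hq0 : 0 < q) (hC : 0 < C) (h : EuF d q C) : Tubes (d + 1) q := by
  refine ⟨C ^ (1 / q), by positivity, ?_⟩
  intro δ hδ hδ1 ι _ a e he hsep
  rw [norm_eq hq0]
  refine (ENNReal.rpow_le_rpow (h δ hδ hδ1 ι a e he hsep) (by positivity)).trans (le_of_eq ?_)
  rw [rhs_eq hq0 hC.le hδ.le (by positivity)]

theorem euF_of_tubes {q : ℝ} (hq0 : 0 < q) (h : Tubes (d + 1) q) : ∃ C : ℝ, 0 < C ∧ EuF d q C := by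
  obtain ⟨C, hC, h⟩ := h
  refine ⟨C ^ q, by positivity, ?_⟩
  intro δ hδ hδ1 ι _ a e he hsep
  have h1 := h δ hδ hδ1 ι a e he hsep
  have hCq : C = (C ^ q) ^ (1 / q) := by
    rw [← Real.rpow_mul hC.le, mul_one_div_cancel hq0.ne', Real.rpow_one]
  rw [norm_eq hq0] at h1
  rw [hCq, ← rhs_eq hq0 (by positivity) hδ.le (by positivity)] at h1
  exact (ENNReal.rpow_le_rpow_iff (by positivity)).1 h1

theorem euL_of_loss {q : ℝ} (hq0 : 0 < q) (h : TubesLoss (d + 1) q) (ε : ℝ) (hε : 0 < ε) :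
    ∃ C : ℝ, 0 ≤ C ∧ EuL d q ε C := by
  obtain ⟨C, hC, h⟩ := h (ε / q) (by positivity)
  refine ⟨C ^ q, by positivity, ?_⟩
  intro δ hδ hδ1 ι _ a e he hsep
  have h1 := h δ hδ hδ1 ι a e he hsep
  have hCq : C * δ ^ (-(ε / q)) = (C ^ q * δ ^ (-ε)) ^ (1 / q) := by
    rw [Real.mul_rpow (by positivity) (by positivity), ← Real.rpow_mul hC.le,
      ← Real.rpow_mul hδ.le, mul_one_div_cancel hq0.ne', Real.rpow_one]
    congr 2
    ring
  rw [norm_eq hq0] at h1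
  rw [hCq, ← rhs_eq hq0 (by positivity) hδ.le (by positivity)] at h1
  refine ((ENNReal.rpow_le_rpow_iff (by positivity)).1 h1).trans (le_of_eq ?_)
  congr 1
  ring

theorem loss_of_euL {q : ℝ} (hq0 : 0 < q) (h : ∀ ε : ℝ, 0 < ε → ∃ C : ℝ, 0 ≤ C ∧ EuL d q ε C) :
    TubesLoss (d + 1) q := by
  intro ε hε
  obtain ⟨C, hC, h⟩ := h (ε * q) (by positivity)
  refine ⟨(C + 1) ^ (1 / q), by positivity, ?_⟩
  intro δ hδ hδ1 ι _ a e he hsep
  have hCq : (C + 1) ^ (1 / q) * δ ^ (-ε) = ((C + 1) * δ ^ (-(ε * q))) ^ (1 / q) := by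
    rw [Real.mul_rpow (by positivity) (by positivity), ← Real.rpow_mul hδ.le]
    congr 2
    field_simp
  rw [norm_eq hq0, hCq, ← rhs_eq hq0 (by positivity) hδ.le (by positivity)]
  refine ENNReal.rpow_le_rpow ((h δ hδ hδ1 ι a e he hsep).trans ?_) (by positivity)
  apply ENNReal.ofReal_le_ofReal
  rw [mul_assoc]
  have : (0 : ℝ) ≤ δ ^ (-(ε * q)) * (δ ^ d * (Fintype.card ι : ℝ) ^ (q - 1 / (d : ℝ))) := by
    positivity
  nlinarith

theorem km_of {d : ℕ} (h : MaximalEstimate (d + 1)) (ε : ℝ) (hε : 0 < ε) :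
    ∃ C : ℝ, 0 ≤ C ∧ KM d ε C := by
  have hn0 : (0 : ℝ) < (d : ℝ) + 1 := by positivity
  obtain ⟨C, hC, hcr⟩ := h (ε / ((d : ℝ) + 1)) (by positivity)
  refine ⟨C ^ ((d : ℝ) + 1), by positivity, ?_⟩
  intro δ hδ hδ1 f hf hft
  have hcast : (((d + 1 : ℕ) : ℝ)) = (d : ℝ) + 1 := by push_cast; ring
  set g : EuclideanSpace ℝ (Fin (d + 1)) → ℝ := fun x => (f x).toReal with hg
  have hgm : Measurable g := hf.ennreal_toReal
  have hge : ∀ x, ‖g x‖ₑ = f x := by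
    intro x
    rw [hg, Real.enorm_of_nonneg ENNReal.toReal_nonneg, ENNReal.ofReal_toReal (hft x)]
  have hkm : ∀ e, kakeyaMax δ g e = Pool.Agent.W46.HM.kmax δ f e := by
    intro e
    unfold kakeyaMax Pool.Agent.W46.HM.kmax
    simp only [hge]
    rfl
  by_cases htop : ∫⁻ y, f y ^ ((d : ℝ) + 1) = ⊤
  · rw [htop, ENNReal.mul_top]
    · exact le_top
    · exact (ENNReal.ofReal_pos.2 (by positivity)).ne'
  have hnorm : eLpNorm g (d + 1 : ℕ) volume = (∫⁻ y, f y ^ ((d : ℝ) + 1)) ^ (1 / ((d : ℝ) + 1)) := by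
    rw [eLpNorm_eq_lintegral_rpow_enorm_toReal (by simp) (by simp)]
    simp only [hge, ENNReal.toReal_natCast, hcast]
  have hmem : MemLp g (d + 1 : ℕ) volume := by
    refine ⟨hgm.aestronglyMeasurable, ?_⟩
    rw [hnorm]
    exact ENNReal.rpow_lt_top_of_nonneg (by positivity) htop
  have h1 := hcr δ hδ hδ1 g hmem
  rw [hnorm, hcast] at h1
  have h2 := ENNReal.rpow_le_rpow h1 hn0.le
  rw [← ENNReal.rpow_mul, ENNReal.mul_rpow_of_nonneg _ _ hn0.le, ← ENNReal.rpow_mul,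
    one_div, inv_mul_cancel₀ hn0.ne', ENNReal.rpow_one, ENNReal.rpow_one,
    ENNReal.ofReal_rpow_of_nonneg (by positivity) hn0.le,
    Real.mul_rpow hC.le (by positivity), ← Real.rpow_mul hδ.le] at h2
  have e1 : -(ε / ((d : ℝ) + 1)) * ((d : ℝ) + 1) = -ε := by field_simp
  rw [e1] at h2
  simp only [hkm] at h2
  exact h2

theorem strong_of_euF (hd : 2 ≤ d) {c : ℝ} (hc : 1 < c) {C : ℝ} (hC : 0 < C)
    (hF : EuF d (1 + c / (d : ℝ)) C) : Pool.Agent.Y244.HM.StrongP d c := by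
  have hT : Pool.Agent.Y244.WR.TubeQ d (1 + c / d) := by
    refine ⟨C, hC, ?_⟩
    intro δ hδ hδ1 ι _ a e he hsep
    have h2 := hF δ hδ hδ1 ι a e he hsep
    have e1 : C * δ ^ (d : ℝ) * (Fintype.card ι : ℝ) ^ (1 + c / (d : ℝ) - 1 / (d : ℝ)) =
        C * (δ ^ d * (Fintype.card ι : ℝ) ^ (1 + c / (d : ℝ) - 1 / (d : ℝ))) := by
      rw [Real.rpow_natCast]; ring
    rw [e1]
    exact h2
  have h1 := Pool.Agent.Y244.WR.weakQ (by omega) (by linarith) hT Pool.Agent.W131.HM.CAP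
    Pool.Agent.W131.HM.VOL
  exact Pool.Agent.Y244.HM.strongP (by omega) hc h1

theorem maximal_of (hd : 2 ≤ d) (h : ∀ c : ℝ, 1 < c → ∃ C : ℝ, 0 < C ∧ EuF d (1 + c / (d : ℝ)) C) :
    MaximalEstimate (d + 1) := by
  intro ε hε
  have hn0 : (0 : ℝ) < (d : ℝ) + 1 := by positivity
  have hcast : (((d + 1 : ℕ) : ℝ)) = (d : ℝ) + 1 := by push_cast; ring
  obtain ⟨C0, hC0, hF⟩ := h (1 + ε) (by linarith)
  obtain ⟨C, hC, hs⟩ := strong_of_euF hd (by linarith) hC0 hF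
  refine ⟨C ^ (1 / ((d : ℝ) + 1)), by positivity, ?_⟩
  intro δ hδ hδ1 f hf
  have h1 := crit_of_sub (c := 1 + ε) (by linarith) (by omega) hδ hδ1
    (fun g hg _ => hs δ hδ hδ1 g hg) (fun y => ‖f y‖ₑ)
    hf.1.aemeasurable.enorm (fun x => by simp)
  have hnorm : eLpNorm f (d + 1 : ℕ) volume =
      (∫⁻ y, ‖f y‖ₑ ^ ((d : ℝ) + 1)) ^ (1 / ((d : ℝ) + 1)) := by
    rw [eLpNorm_eq_lintegral_rpow_enorm_toReal (by simp) (by simp)]
    simp only [ENNReal.toReal_natCast, hcast]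
  rw [hnorm, hcast]
  have h2 := ENNReal.rpow_le_rpow h1 (by positivity : (0 : ℝ) ≤ 1 / ((d : ℝ) + 1))
  rw [ENNReal.mul_rpow_of_nonneg _ _ (by positivity),
    ENNReal.ofReal_rpow_of_nonneg (by positivity) (by positivity),
    Real.mul_rpow hC.le (by positivity), ← Real.rpow_mul hδ.le] at h2
  refine (le_of_eq rfl).trans (h2.trans ?_)
  refine mul_le_mul_left ?_ _
  apply ENNReal.ofReal_le_ofReal
  refine mul_le_mul_of_nonneg_left ?_ (by positivity)
  apply Real.rpow_le_rpow_of_exponent_ge hδ hδ1.le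
  have e4 : (d : ℝ) - (d : ℝ) / (1 + ε) = d * ε / (1 + ε) := by field_simp; ring
  rw [e4]
  have h5 : (d : ℝ) * ε / (1 + ε) * (1 / ((d : ℝ) + 1)) ≤ ε := by
    rw [div_mul_div_comm, div_le_iff₀ (by positivity)]
    have : (0 : ℝ) ≤ d := Nat.cast_nonneg d
    nlinarith [mul_nonneg this hε.le, mul_nonneg this (mul_nonneg hε.le hε.le)]
  linarith

end bridge

/-- For every `n ≥ 3`: (1) the tube inequality with arbitrarily small losses at an exponent
`q₀ ≥ n / (n - 1)` implies the inequality without loss for all `q > q₀`; (2) the conjecture of the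
problem in `ℝ^n` holds if and only if the inequality with arbitrarily small losses holds at
`q = n / (n - 1)`; (3) it holds if and only if the Kakeya maximal function satisfies
`‖f*_δ‖_n ≤ C δ ^ (-ε) ‖f‖_n` for all `ε > 0`; (4) the inequality holds, without loss, for all
`q > (n + 2) / n`. -/
theorem result (n : ℕ) (hn : 3 ≤ n) :
    (∀ q₀ q : ℝ, (n : ℝ) / (n - 1) ≤ q₀ → q₀ < q → TubesLoss n q₀ → Tubes n q) ∧
    ((∀ q : ℝ, (n : ℝ) / (n - 1) < q → Tubes n q) ↔ TubesLoss n ((n : ℝ) / (n - 1))) ∧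
    ((∀ q : ℝ, (n : ℝ) / (n - 1) < q → Tubes n q) ↔ MaximalEstimate n) ∧
    ∀ q : ℝ, ((n : ℝ) + 2) / n < q → Tubes n q := by
  obtain ⟨d, rfl⟩ : ∃ d, n = d + 1 := ⟨n - 1, by omega⟩
  have hd : 2 ≤ d := by omega
  have hd2 : (2 : ℝ) ≤ d := by exact_mod_cast hd
  have hd0 : (0 : ℝ) < d := by linarith
  have e1 : (((d + 1 : ℕ) : ℝ)) / (((d + 1 : ℕ) : ℝ) - 1) = 1 + 1 / (d : ℝ) := by
    push_cast
    rw [add_sub_cancel_right]
    field_simp
  have hpos : (0 : ℝ) < 1 + 1 / (d : ℝ) := by positivity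
  have A : ∀ q₀ q : ℝ, 1 + 1 / (d : ℝ) ≤ q₀ → q₀ < q → TubesLoss (d + 1) q₀ → Tubes (d + 1) q := by
    intro q₀ q h1 h2 h3
    obtain ⟨C, hC, hF⟩ := Pool.Agent.Y254.EL.euF_of_euL hd h1 h2
      (euL_of_loss (by linarith) h3)
    exact tubes_of_euF (by linarith) hC hF
  have B : (∀ q : ℝ, 1 + 1 / (d : ℝ) < q → Tubes (d + 1) q) → TubesLoss (d + 1) (1 + 1 / (d : ℝ)) := by
    intro h
    refine loss_of_euL hpos fun ε hε => ?_
    have h1 : 0 < ε / ((d : ℝ) + 1) := by positivity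
    obtain ⟨C, hC, hF⟩ := euF_of_tubes (d := d) (by linarith)
      (h (1 + 1 / (d : ℝ) + ε / ((d : ℝ) + 1)) (by linarith))
    exact Pool.Agent.Y254.EL.euL_of_euF hpos hε hC hF
  rw [e1]
  refine ⟨A, ⟨B, fun h q hq => A _ q le_rfl hq h⟩, ⟨fun h => ?_, fun h q hq => ?_⟩, ?_⟩
  · refine maximal_of hd fun c hc => euF_of_tubes (by positivity) (h _ ?_)
    gcongr
  · obtain ⟨C, hC, hF⟩ := Pool.Agent.Y254.EL.euF_of_euL hd le_rfl hq
      (fun ε hε => Pool.Agent.Y254.EL.euL_of_KM (by omega) (fun ε hε => km_of h ε hε) ε hε)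
    exact tubes_of_euF (by linarith) hC hF
  · intro q hq
    have hq' : 1 + 2 / ((d + 1 : ℕ) : ℝ) < q := by
      refine lt_of_le_of_lt (le_of_eq ?_) hq
      push_cast
      field_simp
    have hq0 : 0 < q := by
      have : (0 : ℝ) < 2 / ((d + 1 : ℕ) : ℝ) := by positivity
      linarith
    obtain ⟨C, hC, h⟩ := Pool.Agent.Y254.wolff (n := d + 1) (by omega) hq'
    refine tubes_of_euF hq0 hC ?_
    intro δ hδ hδ1 ι _ a e he hsep
    have h2 := h δ hδ hδ1 a e he hsep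
    have e1 : (((d + 1 : ℕ) : ℝ) - 1) = d := by push_cast; ring
    rw [e1, Nat.add_sub_cancel] at h2
    exact h2

end Pool.Agent.Results.MP_850839_an.LossRemoval
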