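import Pool.Agent.V11313.CT.Curve

set_option autoImplicit false

/-!
# MP_850839: the tube inequality for the tubes that meet a curve of finite order

Let `γ : ℝ → ℝ^n`, `n ≥ 3`, be a continuous curve such that, for every direction `ν ≠ 0`, almost
every hyperplane orthogonal to `ν` meets the curve at most `N` times (parametrised arcs of real
algebraic curves, graphs of polynomials, convex curves, polygons, lines, ...).  No smoothness, no
curvature and no boundedness is assumed.  Consider finite families of `δ`-tubes with `δ`-separated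
orientations each of which meets the curve: the concentric tube of length `2 A` and radius `A δ`
contains a point of the curve.  There is no other restriction on the tubes; the place at which a
tube meets the curve may depend on the direction in an arbitrary way.

For these families the inequality of the problem holds for all `q ≥ n / (n - 1)`, including the end
of the range, with the conjectured dependence on `δ` and on the number of tubes up to a power of
`log (1 / δ)`, uniformly over all curves of order `N`.  (At the end of the range `q = n / (n - 1)`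
the conjectured inequality needs a logarithmic factor.)

The proof is the duality of Córdoba's argument, applied to the maximal function of the tubes which
meet the curve (`Pool.Agent.Results.MP_5168f5_an.TubesMeetingCurve`).
-/

open MeasureTheory Set
open scoped ENNReal

namespace Pool.Agent.Results.MP_850839_an.CurveTubes

/-- The `δ`-tube with centre `a` and direction `e` (a unit vector): the closed cylinder of length
`1` and radius `δ` around the segment with centre `a` and direction `e`. -/
def tube {n : ℕ} (δ : ℝ) (a e : EuclideanSpace ℝ (Fin n)) : Set (EuclideanSpace ℝ (Fin n)) :=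
  {y | |inner ℝ (y - a) e| ≤ 1 / 2 ∧ ‖(y - a) - (inner ℝ (y - a) e : ℝ) • e‖ ≤ δ}

/-- The curve `γ` is of order at most `N`: for every direction `ν ≠ 0`, almost every hyperplane
orthogonal to `ν` meets the curve at most `N` times. -/
def OrderLE {n : ℕ} (N : ℕ) (γ : ℝ → EuclideanSpace ℝ (Fin n)) : Prop :=
  ∀ ν : EuclideanSpace ℝ (Fin n), ν ≠ 0 → ∀ᵐ c : ℝ, {u : ℝ | inner ℝ ν (γ u) = c}.encard ≤ N

/-- The closed cylinder of length `2 A` and radius `A δ` around the segment with centre `a` and
direction `e` contains a point of the curve `γ`. -/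
def Meets {n : ℕ} (A δ : ℝ) (a e : EuclideanSpace ℝ (Fin n)) (γ : ℝ → EuclideanSpace ℝ (Fin n)) :
    Prop :=
  ∃ u : ℝ, |inner ℝ (γ u - a) e| ≤ A ∧ ‖(γ u - a) - (inner ℝ (γ u - a) e : ℝ) • e‖ ≤ A * δ

theorem enorm_eq {n : ℕ} {ι : Type} [Fintype ι] (δ : ℝ) (a e : ι → EuclideanSpace ℝ (Fin n))
    (x : EuclideanSpace ℝ (Fin n)) :
    ‖∑ i, (tube δ (a i) (e i)).indicator (fun _ => (1 : ℝ)) x‖ₑ =
      Pool.Agent.Y254.mult (fun i => Pool.Agent.W46.KK.tube δ (a i) (e i)) x := by
  rw [Real.enorm_of_nonneg (Finset.sum_nonneg fun i _ =>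
    Set.indicator_nonneg (fun _ _ => zero_le_one) _),
    ENNReal.ofReal_sum_of_nonneg fun i _ => Set.indicator_nonneg (fun _ _ => zero_le_one) _]
  unfold Pool.Agent.Y254.mult
  refine Finset.sum_congr rfl fun i _ => ?_
  by_cases hx : x ∈ tube δ (a i) (e i)
  · have hx' : x ∈ Pool.Agent.W46.KK.tube δ (a i) (e i) := hx
    rw [Set.indicator_of_mem hx, Set.indicator_of_mem hx', ENNReal.ofReal_one]
    rfl
  · have hx' : x ∉ Pool.Agent.W46.KK.tube δ (a i) (e i) := hx
    rw [Set.indicator_of_notMem hx, Set.indicator_of_notMem hx', ENNReal.ofReal_zero]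

/-- **The tube inequality for the tubes that meet a curve of finite order**, in all dimensions
`n ≥ 3` and for all exponents `q ≥ n / (n - 1)`, with the conjectured dependence on `δ` and on the
number of tubes up to a power of `log (1 / δ)`, uniformly over the curves of order `N`. -/
theorem result (n : ℕ) (hn : 3 ≤ n) (A : ℝ) : ∃ C : ℝ, 0 < C ∧
    ∀ (N : ℕ) (γ : ℝ → EuclideanSpace ℝ (Fin n)), Continuous γ → OrderLE N γ →
    ∀ δ : ℝ, 0 < δ → δ < 1 → ∀ (ι : Type) [Fintype ι] (a e : ι → EuclideanSpace ℝ (Fin n)),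
    (∀ i, ‖e i‖ = 1) → (∀ i j, i ≠ j → δ ≤ ‖e i - e j‖) → (∀ i, Meets A δ (a i) (e i) γ) →
    ∀ q : ℝ, (n : ℝ) / (n - 1) ≤ q →
    eLpNorm (fun x => ∑ i, (tube δ (a i) (e i)).indicator (fun _ => (1 : ℝ)) x)
        (ENNReal.ofReal q) volume ≤
      ENNReal.ofReal ((C * ((N + 1) * (1 + Real.log (N + 1)) ^ 2 *
          (1 + Real.log (1 / δ)) ^ (n + 2))) ^ (1 / (q * ((n : ℝ) - 1))) *
        δ ^ (((n : ℝ) - 1) / q) * (Fintype.card ι : ℝ) ^ (1 - 1 / (q * ((n : ℝ) - 1)))) := by
  obtain ⟨d, rfl⟩ : ∃ d, n = d + 1 := ⟨n - 1, by omega⟩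
  have hd : 2 ≤ d := by omega
  have hd0 : (0 : ℝ) < d := by
    have : 0 < d := by omega
    exact_mod_cast this
  obtain ⟨C, hC, h⟩ := Pool.Agent.V11313.CT.curve_all hd (A := max A 1) (le_max_right _ _)
  refine ⟨C, hC, ?_⟩
  intro N γ hγ hN δ hδ hδ1 ι _ a e he hsep hmeets q hq
  have e0 : (((d + 1 : ℕ) : ℝ) - 1) = d := by push_cast; ring
  have e1 : (((d + 1 : ℕ) : ℝ)) / (((d + 1 : ℕ) : ℝ) - 1) = 1 + 1 / (d : ℝ) := by
    push_cast
    rw [add_sub_cancel_right]
    field_simp
  rw [e1] at hq
  have hq0 : 0 < q := by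
    have : (0 : ℝ) < 1 / d := by positivity
    linarith
  have h1 := h N γ hγ hN δ hδ hδ1 ι a e he hsep (fun i => by
    obtain ⟨u, hu1, hu2⟩ := hmeets i
    refine ⟨u, hu1.trans (le_max_left _ _), hu2.trans ?_⟩
    exact mul_le_mul_of_nonneg_right (le_max_left _ _) hδ.le) q hq
  have e2 : C * Pool.Agent.V11313.CT.W d N δ = C * ((N + 1) * (1 + Real.log (N + 1)) ^ 2 *
      (1 + Real.log (1 / δ)) ^ (d + 1 + 2)) := rfl
  rw [e2] at h1
  have hW : 0 ≤ C * ((N + 1) * (1 + Real.log (N + 1)) ^ 2 *
      (1 + Real.log (1 / δ)) ^ (d + 1 + 2)) := by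
    rw [← e2]
    have := Pool.Agent.V11313.CT.one_le_W (d := d) (N := N) hδ hδ1
    positivity
  generalize C * ((N + 1) * (1 + Real.log (N + 1)) ^ 2 *
      (1 + Real.log (1 / δ)) ^ (d + 1 + 2)) = Y at hW h1 ⊢
  rw [eLpNorm_eq_lintegral_rpow_enorm_toReal (by
    rw [ne_eq, ENNReal.ofReal_eq_zero, not_le]; exact hq0) ENNReal.ofReal_ne_top,
    ENNReal.toReal_ofReal hq0.le]
  simp only [enorm_eq]
  refine (ENNReal.rpow_le_rpow h1 (by positivity)).trans (le_of_eq ?_)
  rw [ENNReal.ofReal_rpow_of_nonneg (by positivity) (by positivity), e0]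
  congr 1
  rw [Real.mul_rpow (by positivity) (by positivity), Real.mul_rpow (by positivity) (by positivity),
    ← Real.rpow_natCast δ, ← Real.rpow_mul hW, ← Real.rpow_mul hδ.le,
    ← Real.rpow_mul (by positivity), mul_assoc]
  congr 2
  · field_simp
  · congr 1
    ring
  · congr 1
    field_simp

end Pool.Agent.Results.MP_850839_an.CurveTubes
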