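import Pool.Agent.V11222.KU.Main
import Pool.Agent.V11222.KU.Vol

/-!
# MP_850839: families of tubes whose union is closed under order operations up to an error

An *order operation* is a function `f : ℝ^m → ℝ` which commutes with all nondecreasing maps
`ℝ → ℝ`, for instance the minimum, the maximum or the median. It acts on the points of `ℝ^n`
through the coordinates with respect to a basis. A set `S ⊆ ℝ^n` is *closed at the scale `r` up to
the error `η`* if for every `p ∈ S` there is an order operation `f`, not a projection and depending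
on `p`, such that for all `x_1, …, x_m ∈ S` at distance at most `r` from `p` the point
`f (x_1, …, x_m)` has distance at most `η` from `S`.

Let a family consist of at least `ω δ^(1-n)` `δ`-tubes in `ℝ^n` with `δ`-separated directions and
with centres in a ball of radius `R`. There are `c, C > 0` which depend only on `ω`, `R`, `r` and
the basis, such that, for all `δ` and `η`,

1. if `S` contains the tubes and is closed at the scale `r` up to the error `η`, then the
   `C η`-neighbourhood of `S` contains a ball of radius `c`;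
2. if the union of the tubes is closed at the scale `r` up to the error `η`, then its volume is at
   least `c (δ / (δ + η)) ^ n`; for `η = K δ` this is a positive lower bound which does not depend
   on `δ`, and for `η = δ ^ (1 - ε)` a lower bound of the form `c' δ ^ (n ε)`.
-/

set_option autoImplicit false

open MeasureTheory Set Metric

namespace Pool.Agent.Results.MP_850839_an.OrderClosedTubes

/-- `ℝ^n` -/
abbrev E (n : ℕ) := EuclideanSpace ℝ (Fin n)

/-- The `δ`-tube with centre `a` and direction `e` (a unit vector): the closed cylinder of length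
`1` and radius `δ` around the segment with centre `a` and direction `e`. -/
def tube {n : ℕ} (δ : ℝ) (a e : E n) : Set (E n) :=
  {y | |inner ℝ (y - a) e| ≤ 1 / 2 ∧ ‖(y - a) - (inner ℝ (y - a) e) • e‖ ≤ δ}

/-- An order operation: `f : ℝ^m → ℝ` commutes with all nondecreasing maps `φ : ℝ → ℝ`. -/
def OrderOp {m : ℕ} (f : (Fin m → ℝ) → ℝ) : Prop :=
  ∀ φ : ℝ → ℝ, Monotone φ → ∀ x : Fin m → ℝ, f (fun l => φ (x l)) = φ (f x)

/-- `f` is not a projection `(x_1, …, x_m) ↦ x_j`. -/
def Nontrivial {m : ℕ} (f : (Fin m → ℝ) → ℝ) : Prop := ¬ ∃ j, ∀ x, f x = x j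

/-- `f` applied to the coordinates with respect to the basis `b` of the points `x_1, …, x_m`. -/
noncomputable def app {n m : ℕ} (b : Module.Basis (Fin n) ℝ (E n)) (f : (Fin m → ℝ) → ℝ)
    (x : Fin m → E n) : E n :=
  ∑ i, f (fun l => b.repr (x l) i) • b i

/-- For every `p ∈ S` there is a nontrivial order operation `f` such that, for all
`x_1, …, x_m ∈ S` at distance at most `r` from `p`, the point `f (x_1, …, x_m)` has distance at
most `η` from a point of `S`. -/
def ClosedUpTo {n : ℕ} (b : Module.Basis (Fin n) ℝ (E n)) (r η : ℝ) (S : Set (E n)) : Prop :=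
  ∀ p ∈ S, ∃ (m : ℕ) (f : (Fin m → ℝ) → ℝ), OrderOp f ∧ Nontrivial f ∧
    ∀ x : Fin m → E n, (∀ l, x l ∈ S ∧ ‖x l - p‖ ≤ r) → ∃ y ∈ S, ‖app b f x - y‖ ≤ η

/-- **Main result.** -/
theorem result (n : ℕ) (hn : 1 ≤ n) (b : Module.Basis (Fin n) ℝ (E n)) (r R ω : ℝ) (hr : 0 < r)
    (hω : 0 < ω) : ∃ c : ℝ, 0 < c ∧ ∃ C : ℝ, 0 < C ∧ ∀ δ η : ℝ, 0 < δ → δ < 1 → 0 < η →
      ∀ (ι : Type) [Fintype ι] (a e : ι → E n), (∀ i, ‖e i‖ = 1) → (∀ i, ‖a i‖ ≤ R) →
      (∀ i j, i ≠ j → δ ≤ ‖e i - e j‖) → ω ≤ (Fintype.card ι : ℝ) * δ ^ (n - 1) →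
      (∀ S : Set (E n), (∀ i, tube δ (a i) (e i) ⊆ S) → ClosedUpTo b r η S →
        ∃ z, ball z c ⊆ thickening (C * η) S) ∧
      (ClosedUpTo b r η (⋃ i, tube δ (a i) (e i)) →
        ENNReal.ofReal (c * (δ / (δ + η)) ^ n) ≤ volume (⋃ i, tube δ (a i) (e i))) := by
  obtain ⟨m, rfl⟩ : ∃ m, n = m + 1 := ⟨n - 1, by omega⟩
  obtain ⟨L, hL⟩ : ∃ L : E (m + 1) ≃L[ℝ] (Fin (m + 1) → ℝ), ∀ x i, L x i = b.repr x i :=
    ⟨b.equivFun.toContinuousLinearEquiv, fun x i => by simp⟩
  have happ : ∀ (k : ℕ) (f : (Fin k → ℝ) → ℝ) (x : Fin k → E (m + 1)),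
      L (app b f x) = fun i => f (fun l => L (x l) i) := by
    intro k f x
    funext i
    rw [hL, app, map_sum]
    simp only [map_smul, Module.Basis.repr_self, Finsupp.coe_finsetSum, Finset.sum_apply,
      Finsupp.smul_apply, smul_eq_mul, ← hL]
    rw [Finset.sum_eq_single i]
    · simp
    · intro j _ hji
      simp [hji]
    · intro h; exact absurd (Finset.mem_univ _) h
  obtain ⟨Λ, hΛ⟩ := L.toContinuousLinearMap.bound
  obtain ⟨hΛ0, hΛ⟩ := hΛ
  obtain ⟨c, hc, C, hC, hmain⟩ := V11222.KU.main m L r R ω hr hω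
  obtain ⟨c', hc', hvol⟩ := V11222.KU.vol_lower (m + 1) hc (mul_pos hC hΛ0)
  refine ⟨min c c', lt_min hc hc', C * Λ, mul_pos hC hΛ0, ?_⟩
  intro δ η hδ hδ1 hη ι _ a e he ha hsep hcard
  have key : ∀ S : Set (E (m + 1)), (∀ i, tube δ (a i) (e i) ⊆ S) → ClosedUpTo b r η S →
        ∃ z, ball z c ⊆ thickening (C * Λ * η) S := by
    intro S hS hcl
    obtain ⟨z, hz⟩ := hmain δ (Λ * η) hδ hδ1 (mul_pos hΛ0 hη) ι a e he ha hsep hcard S hS (by
      intro p hp
      obtain ⟨k, f, hf, hnt, hcl'⟩ := hcl p hp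
      refine ⟨k, f, hf, hnt, fun x hx => ?_⟩
      obtain ⟨y, hy, hxy⟩ := hcl' x hx
      refine ⟨y, hy, ?_⟩
      rw [← happ, ← map_sub]
      exact (hΛ _).trans (mul_le_mul_of_nonneg_left hxy hΛ0.le))
    exact ⟨z, by rwa [mul_assoc]⟩
  refine ⟨fun S hS hcl => ?_, fun hcl => ?_⟩
  · obtain ⟨z, hz⟩ := key S hS hcl
    exact ⟨z, (ball_subset_ball (min_le_left _ _)).trans hz⟩
  · obtain ⟨z, hz⟩ := key _ (fun i => subset_iUnion (fun i => tube δ (a i) (e i)) i) hcl
    refine le_trans (ENNReal.ofReal_le_ofReal ?_) (hvol δ η hδ hη _ ?_ ?_ z hz)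
    · exact mul_le_mul_of_nonneg_right (min_le_right _ _) (by positivity)
    · exact MeasurableSet.iUnion fun i => (V11222.KU.tube_closed δ (a i) (e i)).measurableSet
    · intro x hx
      obtain ⟨i, hi⟩ := mem_iUnion.1 hx
      obtain ⟨y, hy, hyb⟩ := V11222.KU.tube_thick hδ hδ1 (he i) hi
      exact ⟨y, hy, hyb.trans (subset_iUnion (fun i => tube δ (a i) (e i)) i)⟩

end Pool.Agent.Results.MP_850839_an.OrderClosedTubes
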