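import Pool.Agent.V1282.TW.Tri
import Pool.Agent.V1282.TW.TubesT

set_option autoImplicit false
set_option maxHeartbeats 1000000

/-!
# MP_850839: the tube inequality, in the full range and without loss, for towers of families of lines

Work in `ℝ^n = ℝ^d × ℝ`, `n = d + 1`, with its Euclidean norm (`Space d`).  A family of lines, one line
`{(b v + t v, t)}` for each slope `v` in a set `B` of the unit ball of `ℝ^d`, is given by a measurable
map `b`; its direction is `dir v = (v, 1)/√(1+|v|²)`.

A family is a *tower* (`Tower`, in `Pool.Agent.V1282.TW.Defs`) if it is built from *stages* by countable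
decompositions of `B`, with summable multiplicities, and by *skew products*: the slopes are split,
`ℝ^d = ℝ^{d1} × ℝ^{d2}` (an arbitrary orthogonal splitting), the first component of `b(v1, v2)` is
`b1(v1)` for a tower `b1` of dimension `d1`, and the second one is `b2(v1)(v2)`, where for each `v1`
the map `b2(v1)` is a tower of dimension `d2`; its dependence on `v1` is completely arbitrary
(measurable).  The stages (`NL.Stage`, in `Pool.Agent.V1282.TW.LpTower`) are

* arbitrary families of lines in the plane (`d' = 1`, any measurable `b`);
* families with at most `M` lines through almost every point, given by a map that is Lipschitz on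
  countably many pieces (without any bound for the Lipschitz constants);
* section-monotone families;
* any family of dimension `d'` that satisfies the strong type inequality below at the exponent
  `q' = 1 + d (q - 1)/d'` (so that `d' (q' - 1) = d (q - 1)`), with the constant `c d'`.

In particular all *triangular* families are towers of multiplicity one: the `k`-th coordinate of `b v` is
an arbitrary measurable function of `v 1, ..., v k` (`Triangular`, in `Pool.Agent.V1282.TW.Tri`).

For every `q > n/(n-1)` all towers satisfy, with constants that depend on `n`, `q` and `c` only,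
times a power of the multiplicity `M`,

* the strong type inequality `StrongType q`: the bound for the Kakeya maximal function of the family, in
  its dual form, for all radii `R` and all weights `f ≥ 0`, without any loss in `R`;
* the tube inequality `TubeIneq q` of the problem, with arbitrary coefficients and without any loss in
  `δ`, for `δ`-tubes anywhere in space, with `δ`-separated orientations, such that for a proportion `θ`
  of the slopes `w` at distance `< δ/2` of the slope of the tube the line number `w` of the family passes
  at distance `≤ K δ` of the centre of the tube.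

So the class of the families that satisfy the inequality of the problem in the full range is closed
under skew products, with no regularity of the dependence on the first factor.
-/

open MeasureTheory Set ENNReal NNReal Metric

namespace Pool.Agent.Results.MP_850839_an.TowerTubes

open Pool.Agent.V1282.TW
open Pool.Agent.V1282.TW.NL (StrongType Stage)
open Pool.Agent.V1282.TW.NT (TubeIneq)

theorem tubeIneq_mono {d : ℕ} {q C C' : ℝ} (h : C ≤ C') {B : Set (Vec d)} {b : Vec d → Vec d}
    (hT : TubeIneq q C B b) : TubeIneq q C' B b := by
  intro K θ δ hθ hδ hδ1 ι _ v c s a hv hsep hE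
  refine (hT K θ δ hθ hδ hδ1 ι v c s a hv hsep hE).trans (ENNReal.ofReal_le_ofReal ?_)
  have hK0 : (0 : ℝ) ≤ K := K.2
  have hSa0 : 0 ≤ ∑ i, |a i| ^ (q * d / (q * d - 1)) :=
    Finset.sum_nonneg fun i _ => by positivity
  gcongr

/-- **The strong type inequality and the tube inequality for towers of families of lines, and for all
triangular families, in the full range `q > n/(n-1)`, `n = d + 1`, without any loss in `δ`.** -/
theorem result (d : ℕ) (hd : 1 ≤ d) (q : ℝ) (hq : ((d : ℝ) + 1) / d < q) (c : ℕ → ℝ≥0) :
    ∃ C : ℝ, 0 < C ∧
      (∀ (M : ℝ≥0) (B : Set (Vec d)) (b : Vec d → Vec d),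
        Tower (Stage (d * (q - 1)) c) d M B b →
        StrongType q (C * (M : ℝ) ^ (1 / (d : ℝ))) B b ∧
        TubeIneq q (C * (M : ℝ) ^ (1 / (q * d))) B b) ∧
      ∀ (B : Set (Vec d)) (b : Vec d → Vec d), MeasurableSet B → B ⊆ closedBall 0 1 →
        Measurable b → Triangular b → StrongType q C B b ∧ TubeIneq q C B b := by
  obtain ⟨hd0, hq1, hqd, hr, hs0, hq2⟩ := Pool.Agent.TH221.Rough.exp_facts hd hq
  obtain ⟨D, hD, hD'⟩ := Pool.Agent.V1282.TW.NT.tubes_of_strong hd hq
  have hq0 : 0 < q := by linarith
  set l : ℝ := d * (q - 1) with hl
  have hlq : 1 + l / (d : ℝ) = q := by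
    rw [hl]
    field_simp
    ring
  set E : ℝ := 5 * Pool.Agent.V1282.TW.NL.E0 l c d with hE
  have hom := Pool.Agent.H810R3.Tub.om_pos (d := d)
  have hE0 : 0 ≤ E := by
    rw [hE]
    unfold Pool.Agent.V1282.TW.NL.E0
    positivity
  have main : ∀ (M : ℝ≥0) (B : Set (Vec d)) (b : Vec d → Vec d),
        Tower (Stage (d * (q - 1)) c) d M B b →
        StrongType q ((E + D * E ^ (1 / q) + 1) * (M : ℝ) ^ (1 / (d : ℝ))) B b ∧
        TubeIneq q ((E + D * E ^ (1 / q) + 1) * (M : ℝ) ^ (1 / (q * d))) B b := by
    intro M B b hT
    have hM0 : (0 : ℝ) ≤ M := M.2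
    have hBm : MeasurableSet B ∧ Measurable b := by
      have hK : Pool.Agent.TH426.Kt.KTower (Pool.Agent.V1282.TW.NL.GB l c) d (1 + d / l) M B b := by
        refine Pool.Agent.V1282.TW.NL.toK (by linarith) ?_ hT
        intro d M B b hd hB hB1 hb hS
        exact ⟨rfl, hd, hB, hB1, hb, Pool.Agent.V1282.TW.NL.stage_strong hr c hd hB hB1 hb hS⟩
      obtain ⟨h1, -, h3⟩ := hK.meas (Pool.Agent.V1282.TW.NL.gb_reg hr c)
      exact ⟨h1, h3⟩
    have h1 := Pool.Agent.V1282.TW.NL.tower_strong hr c hd hT
    rw [hlq, ← hE] at h1
    have hp : (0 : ℝ) ≤ (M : ℝ) ^ (1 / (d : ℝ)) := by positivity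
    constructor
    · refine h1.mono ?_
      have : E ≤ E + D * E ^ (1 / q) + 1 := by
        have : 0 ≤ D * E ^ (1 / q) := by positivity
        linarith
      gcongr
    · have h2 := hD' (E * (M : ℝ) ^ (1 / (d : ℝ))) B b (by positivity) hBm.1 hBm.2
        (fun a R f hR hf => h1 a R f hR hf)
      refine tubeIneq_mono ?_ h2
      rw [Real.mul_rpow hE0 hp, ← Real.rpow_mul hM0, ← mul_assoc]
      have e : 1 / (d : ℝ) * (1 / q) = 1 / (q * d) := by field_simp
      rw [e]
      have : D * E ^ (1 / q) ≤ E + D * E ^ (1 / q) + 1 := by linarith
      gcongr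
  refine ⟨E + D * E ^ (1 / q) + 1, by positivity, main, ?_⟩
  intro B b hB hB1 hb htri
  have h := main 1 B b (Pool.Agent.V1282.TW.NL.tri_tower _ c hd B b hB hB1 hb htri)
  simpa using h

end Pool.Agent.Results.MP_850839_an.TowerTubes
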